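import Pool.Agent.H57.CM.Targets

/-!
# Metric spaces with distances in a finite ordered monoid (MP_6ab439_lc), row RZ1: relative local
completions for labels
-/

set_option autoImplicit false

namespace Pool.Agent.H14.CM

open Pool.Agent.H68.BP Pool.Agent.H58.SF Pool.Agent.H53.NR
open Pool.Agent.H57.AR (tp ty Ty)
open Pool.Agent.H57.LH (Hmg tp_iff)
open Pool.Agent.H57.CN (tp_comp lv_tp)
open Pool.Agent.H72.CH
open Pool.Agent.H57.CM
open Function

/-- representatives of the entries of a tuple -/
private theorem reps {V : Type} {r : ℕ} (y : Fin r → V) : ∃ (k : ℕ) (rep : Fin k → Fin r)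
    (rho : Fin r → Fin k), k ≤ r ∧ Injective (fun j => y (rep j)) ∧
      ∀ i, y (rep (rho i)) = y i := by
  classical
  have hf : Finite (Set.range y) := (Set.finite_range y).to_subtype
  let q := Finite.equivFin (Set.range y)
  have hq : ∀ v : Set.range y, ∃ i, y i = v.1 := fun v => v.2
  choose c hc using hq
  refine ⟨Nat.card (Set.range y), fun j => c (q.symm j), fun i => q ⟨y i, i, rfl⟩, ?_, ?_, ?_⟩
  · have h1 : Injective fun j => c (q.symm j) := by
      intro a b hab
      have h2 : (q.symm a).1 = (q.symm b).1 := by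
        rw [← hc, ← hc]
        exact congrArg y hab
      exact q.symm.injective (Subtype.ext h2)
    have h3 := Fintype.card_le_of_injective _ h1
    rwa [Fintype.card_fin, Fintype.card_fin] at h3
  · intro a b hab
    have h2 : (q.symm a).1 = (q.symm b).1 := by
      rw [← hc, ← hc]
      exact hab
    exact q.symm.injective (Subtype.ext h2)
  · intro i
    rw [hc, Equiv.symm_apply_apply]

private theorem card_aux {α : Type} (U : Finset α) (r M0 : ℕ) (hU : U.card ≤ M0) :
    Fintype.card ((k : Fin (r + 1)) × (Fin k.1 → U)) ≤ (r + 1) * (M0 + 1) ^ r := by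
  rw [Fintype.card_sigma]
  refine (Finset.sum_le_card_nsmul _ _ ((M0 + 1) ^ r) fun k _ => ?_).trans ?_
  · rw [Fintype.card_fun, Fintype.card_coe, Fintype.card_fin]
    calc U.card ^ k.1 ≤ (M0 + 1) ^ k.1 := Nat.pow_le_pow_left (by omega) _
      _ ≤ (M0 + 1) ^ r := Nat.pow_le_pow_right (by omega) (by omega)
  · rw [Finset.card_univ, Fintype.card_fin, smul_eq_mul]

theorem pf_RZ1 : T_RZ1 := by
  classical
  intro V ρ 𝔹 m lv hV r
  obtain ⟨M0, hM0⟩ := hV.rlc r
  refine ⟨(r + 1) * (M0 + 1) ^ r + M0 + 2, ?_⟩
  intro X Λ _ lam z y hlam hlv hloc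
  have hrep := fun a => reps (y a)
  choose k rep rho hk hinj hrho using hrep
  let e := Finite.equivFin X
  -- two labels
  have two : ∀ a b (j : ℕ) (α β : Fin j → Fin r), (∀ i, z a (α i) = z b (β i)) →
      tp 𝔹 (fun i => y a (α i)) = tp 𝔹 (fun i => y b (β i)) := by
    intro a b j α β h
    obtain ⟨f, -, hf⟩ := hloc ∅ {a, b} (by rw [Finset.card_empty]; omega)
      (Finset.card_le_two.trans (by omega))
    have ha := tp_comp (hf a (by simp)) α
    have hb := tp_comp (hf b (by simp)) β
    have hab : (fun i => f (z a (α i))) = fun i => f (z b (β i)) := by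
      funext i
      rw [h i]
    rw [← ha, ← hb, hab]
  obtain ⟨g, hg1, hg2⟩ := hM0 (Nat.card X) (fun i j => lam (e.symm i) (e.symm j))
    (Set.range fun a => (⟨k a, fun j => e (z a (rep a j)),
      pull 𝔹 (fun j => y a (rep a j))⟩ : Pool.Agent.H57.LCI.Pre ρ (Fin (Nat.card X))))
    ⟨fun _ _ => hlam.le _ _, fun _ => hlam.self _, fun _ _ => hlam.sym _ _,
      fun _ _ _ => hlam.ult _ _ _⟩ (by
        rintro p ⟨a, rfl⟩
        exact hk a) (by
    intro U hU
    let Q : ((j : Fin (r + 1)) × (Fin j.1 → U)) → Prop := fun t =>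
      ∃ (a : Λ) (ι : Fin t.1.1 → Fin r), ∀ i, e (z a (ι i)) = (t.2 i).1
    let S := Finset.univ.filter Q
    have hS : ∀ t : S, Q t.1 := fun t => (Finset.mem_filter.1 t.2).2
    choose ch hch using hS
    have hL : (S.attach.image ch).card ≤ (r + 1) * (M0 + 1) ^ r := by
      refine Finset.card_image_le.trans ?_
      rw [Finset.card_attach]
      refine (Finset.card_filter_le _ _).trans ?_
      rw [Finset.card_univ]
      exact card_aux U r M0 hU
    obtain ⟨f, hf1, hf2⟩ := hloc (U.image e.symm) (S.attach.image ch)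
      (Finset.card_image_le.trans (by omega)) (by omega)
    refine ⟨fun i => f (e.symm i), fun x hx x' hx' => ?_, ?_⟩
    · exact hf1 _ (Finset.mem_image_of_mem _ hx) _ (Finset.mem_image_of_mem _ hx')
    · rintro p ⟨b, rfl⟩ hbU
      have hkb : k b < r + 1 := Nat.lt_succ_of_le (hk b)
      let t : (j : Fin (r + 1)) × (Fin j.1 → U) :=
        ⟨⟨k b, hkb⟩, fun j => ⟨e (z b (rep b j)), hbU j⟩⟩
      have ht : t ∈ S := Finset.mem_filter.2 ⟨Finset.mem_univ _, b, rep b, fun i => rfl⟩
      obtain ⟨ι, hι⟩ := hch ⟨t, ht⟩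
      have ha : ch ⟨t, ht⟩ ∈ S.attach.image ch :=
        Finset.mem_image_of_mem _ (Finset.mem_attach _ _)
      have hz : ∀ i : Fin (k b), z (ch ⟨t, ht⟩) (ι i) = z b (rep b i) := fun i =>
        e.injective (hι i)
      have h1 := tp_comp (hf2 _ ha) ι
      have h2 := two (ch ⟨t, ht⟩) b (k b) ι (rep b) hz
      have h3 : (fun i => f (z (ch ⟨t, ht⟩) (ι i))) = fun i : Fin (k b) => f (z b (rep b i)) :=
        funext fun i => congrArg f (hz i)
      have h4 : tp 𝔹 (fun i : Fin (k b) => f (z b (rep b i))) =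
          tp 𝔹 (fun i => y b (rep b i)) := by
        rw [← h3]
        exact h1.trans h2
      have h5 : ∀ i : Fin (k b), f (e.symm (e (z b (rep b i)))) = f (z b (rep b i)) := fun i => by
        rw [Equiv.symm_apply_apply]
      refine ⟨⟨?_, ?_⟩, ?_⟩
      · intro i j hij
        change f (e.symm (e (z b (rep b i)))) = f (e.symm (e (z b (rep b j)))) at hij
        rw [h5, h5] at hij
        exact hinj b (((tp_iff.1 h4).1 i j).1 hij)
      · intro l w
        have h6 := ((tp_iff.1 h4).2 l w).symm
        have h7 : (fun i => f (e.symm (e (z b (rep b (w i)))))) =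
            fun i => f (z b (rep b (w i))) := funext fun i => h5 _
        change 𝔹 l (fun i => y b (rep b (w i))) ↔
          𝔹 l (fun i => f (e.symm (e (z b (rep b (w i))))))
        rw [h7]
        exact h6
      · intro i j
        change lv (f (e.symm (e (z b (rep b i))))) (f (e.symm (e (z b (rep b j))))) =
          lam (e.symm (e (z b (rep b i)))) (e.symm (e (z b (rep b j))))
        rw [h5, h5, Equiv.symm_apply_apply, Equiv.symm_apply_apply, ← hlv]
        exact lv_tp hV h4 i j)
  refine ⟨fun x => g (e x), fun x x' => ?_, fun a => ?_⟩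
  · have := hg1 (e x) (e x')
    rwa [Equiv.symm_apply_apply, Equiv.symm_apply_apply] at this
  · obtain ⟨h1, h2⟩ := hg2 _ ⟨a, rfl⟩
    have h3 : ∀ i, g (e (z a i)) = g (e (z a (rep a (rho a i)))) := by
      intro i
      refine hV.lev.eq _ _ ?_
      rw [hg1, Equiv.symm_apply_apply, Equiv.symm_apply_apply, ← hlv, hrho]
      exact hV.lev.pl.self _
    refine tp_iff.2 ⟨fun i j => ?_, fun l w => ?_⟩
    · change g (e (z a i)) = g (e (z a j)) ↔ y a i = y a j
      rw [h3 i, h3 j]
      constructor
      · intro h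
        have h4 : rho a i = rho a j := h1 h
        rw [← hrho a i, ← hrho a j, h4]
      · intro h
        have h4 : rho a i = rho a j := hinj a (by
          change y a (rep a (rho a i)) = y a (rep a (rho a j))
          rw [hrho, hrho, h])
        rw [h4]
    · have h4 : (fun i => g (e (z a (w i)))) =
          fun i => g (e (z a (rep a (rho a (w i))))) := funext fun i => h3 _
      have h5 : (fun i => y a (w i)) = fun i => y a (rep a (rho a (w i))) :=
        funext fun i => (hrho a (w i)).symm
      change 𝔹 l (fun i => g (e (z a (w i)))) ↔ 𝔹 l (fun i => y a (w i))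
      rw [h4, h5]
      exact (h2 l fun i => rho a (w i)).symm

end Pool.Agent.H14.CM
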