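import Pool.Agent.H57.CM.Targets

/-!
# Metric spaces with distances in a finite ordered monoid (MP_6ab439_lc), row RZ2: local
completions for labels give relative local completions
-/

set_option autoImplicit false

namespace Pool.Agent.H14.CM

open Pool.Agent.H68.BP Pool.Agent.H58.SF Pool.Agent.H53.NR
open Pool.Agent.H57.AR (tp ty Ty)
open Pool.Agent.H57.LH (Hmg tp_iff)
open Pool.Agent.H57.LCI (Pre Realizes)
open Pool.Agent.H57.CN (tp_comp)
open Pool.Agent.H72.CH
open Pool.Agent.H57.CM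
open Function

private theorem tp_of_realizes {V X : Type} {ρ : Sig} {𝔹 : Str ρ V} {f g : X → V} {p : Pre ρ X}
    (hf : Realizes 𝔹 f p) (hg : Realizes 𝔹 g p) :
    tp 𝔹 (fun i => f (p.2.1 i)) = tp 𝔹 (fun i => g (p.2.1 i)) :=
  tp_iff.2 ⟨fun _ _ => ⟨fun h => congrArg (fun i => g (p.2.1 i)) (hf.1 h),
    fun h => congrArg (fun i => f (p.2.1 i)) (hg.1 h)⟩,
    fun l w => (hf.2 l w).symm.trans (hg.2 l w)⟩

private theorem realizes_of_tp {V X : Type} {ρ : Sig} {𝔹 : Str ρ V} {f g : X → V} {p : Pre ρ X}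
    (hg : Realizes 𝔹 g p) (h : tp 𝔹 (fun i => f (p.2.1 i)) = tp 𝔹 (fun i => g (p.2.1 i))) :
    Realizes 𝔹 f p :=
  ⟨fun a b hab => hg.1 (((tp_iff.1 h).1 a b).1 hab),
    fun l w => (hg.2 l w).trans ((tp_iff.1 h).2 l w).symm⟩

theorem pf_RZ2 : T_RZ2 := by
  classical
  intro V ρ 𝔹 m lv h0 hz
  refine ⟨h0.ne, h0.cnt, h0.ar, h0.lev, h0.inv, h0.one, h0.hmg, fun r => ?_⟩
  obtain ⟨M1, hM1⟩ := hz r
  refine ⟨M1 + M1 * r + r, fun n lam P hlam hP hloc => ?_⟩
  -- a local map for each prescription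
  have hloc1 : ∀ p ∈ P, ∃ f : Fin n → V, RlE 𝔹 lv lam f p := by
    intro p hp
    obtain ⟨f, -, hf⟩ := hloc (Finset.univ.image p.2.1) (by
      refine Finset.card_image_le.trans ?_
      rw [Finset.card_univ, Fintype.card_fin]
      exact (hP p hp).trans (Nat.le_add_left _ _))
    exact ⟨f, hf p hp fun i => Finset.mem_image_of_mem _ (Finset.mem_univ _)⟩
  let Λ := {p : Pre ρ (Fin n) // p ∈ P ∧ 1 ≤ p.1}
  choose F hF using fun p : Λ => hloc1 p.1 p.2.1
  let zi : (p : Λ) → Fin r → Fin p.1.1 := fun p i => ⟨min i.1 (p.1.1 - 1), by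
    have := p.2.2
    omega⟩
  obtain ⟨f, hf1, hf2⟩ := hM1 (Fin n) Λ lam (fun p i => p.1.2.1 (zi p i))
    (fun p i => F p (p.1.2.1 (zi p i))) hlam (fun p i j => (hF p).2 _ _) (by
    intro U L hU hL
    obtain ⟨f, hf1, hf2⟩ := hloc (U ∪ L.biUnion fun p => Finset.univ.image p.1.2.1) (by
      refine (Finset.card_union_le _ _).trans ?_
      have h1 : (L.biUnion fun p => Finset.univ.image p.1.2.1).card ≤ L.card * r := by
        refine Finset.card_biUnion_le_card_mul _ _ _ fun p _ => ?_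
        refine Finset.card_image_le.trans ?_
        rw [Finset.card_univ, Fintype.card_fin]
        exact hP p.1 p.2.1
      have h2 : L.card * r ≤ M1 * r := Nat.mul_le_mul_right _ hL
      omega)
    refine ⟨f, fun x hx x' hx' => hf1 x (Finset.mem_union_left _ hx) x'
      (Finset.mem_union_left _ hx'), fun p hp => ?_⟩
    have h1 := hf2 p.1 p.2.1 fun i => Finset.mem_union_right _
      (Finset.mem_biUnion.2 ⟨p, hp, Finset.mem_image_of_mem _ (Finset.mem_univ _)⟩)
    exact tp_comp (tp_of_realizes h1.1 (hF p).1) (zi p))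
  refine ⟨f, hf1, fun p hp => ?_⟩
  rcases Nat.eq_zero_or_pos p.1 with h1 | h1
  · refine ⟨fun a b _ => ?_, fun l w => ?_⟩
    · have := a.2
      omega
    · have h2 := (w ⟨0, h0.ar l⟩).2
      omega
  · let q : Λ := ⟨p, hp, h1⟩
    refine realizes_of_tp (hF q).1 ?_
    have hr := hP p hp
    have h2 := tp_comp (hf2 q) (fun j : Fin p.1 => (⟨j.1, by have := j.2; omega⟩ : Fin r))
    have h3 : ∀ j : Fin p.1, zi q ⟨j.1, by have := j.2; omega⟩ = j := fun j => by
      refine Fin.ext ?_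
      change min j.1 (p.1 - 1) = j.1
      have := j.2
      omega
    have h4 : ∀ g : Fin n → V, (fun j : Fin p.1 => g (q.1.2.1 (zi q ⟨j.1, by
        have := j.2; omega⟩))) = fun j => g (p.2.1 j) := fun g => by
      funext j
      rw [h3 j]
    have h5 := h4 f
    have h6 := h4 (F q)
    rw [← h5, ← h6]
    exact h2

end Pool.Agent.H14.CM
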